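import Pool.Agent.Work.MP_223b32_tl.Interface
import Pool.Agent.Work.MP_223b32_tc.LIN

/-!
# Block LINL: the rank of the linear condition
-/

namespace Pool.Agent.Work.TL.LINL

open Finset Polynomial Pool.Agent.Work.MP_223b32_ag Pool.Agent.Work.MP_223b32_ag_56
  Pool.Agent.Work.TC Pool.Agent.Work.TC.LIN

/-- The linear relation at an arbitrary root of unity `ε`. -/
theorem main {G : Type} [Field G] [Fintype G] [DecidableEq G] [Algebra (ZMod 2) G] [CharP G 2]
    {n m : ℕ} (hn : n.Prime) (hn2 : n ≠ 2) (hG : Fintype.card G = 2 ^ m)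
    (hfin : Module.finrank (ZMod 2) G = m) {I : Finset G} (hI : Adm n I) {ε : G}
    (hεn : ε ^ n = 1) (z : G) (hz : ∀ k ∈ Icc 1 (n / 2),
      Algebra.trace (ZMod 2) G (z ^ 2 * cc n I k) = 0) :
    ∑ s ∈ (range m).filter (fun s => ∃ ζ ∈ I ∪ I.image (fun x => x⁻¹), ζ ^ 2 ^ s = ε),
      (z ^ 2 + z) ^ 2 ^ s = 0 := by
  set E : Finset G := I ∪ I.image (fun x => x⁻¹) with hE
  have hE1 : ∀ ζ ∈ E, ζ ^ n = 1 := by
    intro ζ hζ
    rcases mem_union.1 hζ with h | h
    · exact (hI ζ h).1
    · obtain ⟨b, hb, rfl⟩ := mem_image.1 h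
      rw [inv_pow, (hI b hb).1, inv_one]
  have h1 : ∀ k ∈ range n, ∑ s ∈ range m, (z ^ 2 + z) ^ 2 ^ s * CC n I k ^ 2 ^ s = 0 := by
    have h2 : ∀ k ∈ Icc 1 (n / 2),
        ∑ s ∈ range m, (z ^ 2 + z) ^ 2 ^ s * CC n I k ^ 2 ^ s = 0 := by
      intro k hk
      have h3 := congrArg (algebraMap (ZMod 2) G) (hz k hk)
      rw [FiniteField.algebraMap_trace_eq_sum_pow, map_zero, hfin, Nat.card_eq_fintype_card,
        ZMod.card, cc_eq] at h3
      rw [← h3]
      have h4 : ∑ s ∈ range m, (z * CC n I k) ^ 2 ^ s =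
          ∑ s ∈ range m, (z * CC n I k) ^ 2 ^ (s + 1) := by
        have h5 : (z * CC n I k) ^ 2 ^ m = (z * CC n I k) ^ 2 ^ 0 := by
          rw [← hG, FiniteField.pow_card, pow_zero, pow_one]
        have h6 := sum_range_succ (fun s => (z * CC n I k) ^ 2 ^ s) m
        rw [sum_range_succ'] at h6
        rw [h5] at h6
        exact (add_right_cancel h6).symm
      calc ∑ s ∈ range m, (z ^ 2 + z) ^ 2 ^ s * CC n I k ^ 2 ^ s
          = ∑ s ∈ range m, (z ^ 2 * CC n I k) ^ 2 ^ s +
              ∑ s ∈ range m, (z * CC n I k) ^ 2 ^ s := by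
            rw [← sum_add_distrib]
            refine sum_congr rfl fun s _ => ?_
            rw [add_pow_char_pow, add_mul, mul_pow, mul_pow]
        _ = ∑ s ∈ range m, (z ^ 2 * (CC n I k + CC n I k ^ 2)) ^ 2 ^ s := by
            rw [h4, ← sum_add_distrib]
            refine sum_congr rfl fun s _ => ?_
            rw [mul_add, add_pow_char_pow]
            congr 1
            rw [← mul_pow, ← pow_mul, ← pow_succ']
    intro k hk
    rw [mem_range] at hk
    rcases Nat.eq_zero_or_pos k with rfl | hk0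
    · refine sum_eq_zero fun s _ => ?_
      rw [CC_zero (fun ζ hζ => (hI ζ hζ).1), zero_pow (by positivity), mul_zero]
    by_cases hk1 : k ≤ n / 2
    · exact h2 k (mem_Icc.2 ⟨hk0, hk1⟩)
    · have h3 := h2 (n - k) (mem_Icc.2 ⟨by omega, by omega⟩)
      rwa [CC_symm I hk.le] at h3
  -- sum over `k` against `ε ^ (- k)`
  have h7 : ∑ k ∈ range n, ε ^ ((n - 1) * k) *
      ∑ s ∈ range m, (z ^ 2 + z) ^ 2 ^ s * CC n I k ^ 2 ^ s = 0 := by
    refine sum_eq_zero fun k hk => ?_
    rw [h1 k hk, mul_zero]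
  have h8 : ∀ s ∈ range m, ∑ k ∈ range n, ε ^ ((n - 1) * k) * CC n I k ^ 2 ^ s =
      if ∃ ζ ∈ E, ζ ^ 2 ^ s = ε then 1 else 0 := by
    intro s _
    have h9 : ∀ k ∈ range n, ε ^ ((n - 1) * k) * CC n I k ^ 2 ^ s =
        ∑ ζ ∈ E, (ε ^ (n - 1) * ζ ^ 2 ^ s) ^ k := by
      intro k hk
      rw [CC_eq hI (mem_range.1 hk).le, sum_pow_char_pow, mul_sum]
      refine sum_congr rfl fun ζ _ => ?_
      rw [mul_pow, ← pow_mul, ← pow_mul, ← pow_mul, mul_comm k]
    rw [sum_congr rfl h9, sum_comm]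
    have hεε : ε ^ (n - 1) * ε = 1 := by
      rw [← pow_succ, Nat.sub_add_cancel hn.one_le, hεn]
    have h10 : ∀ ζ ∈ E, ∑ k ∈ range n, (ε ^ (n - 1) * ζ ^ 2 ^ s) ^ k =
        if ζ ^ 2 ^ s = ε then 1 else 0 := by
      intro ζ hζ
      split_ifs with h
      · rw [h, hεε]
        simp only [one_pow, sum_const, card_range, nsmul_eq_mul, mul_one]
        have hodd : n % 2 = 1 := by
          rcases hn.eq_two_or_odd with h' | h'
          · exact absurd h' hn2
          · exact h'
        rw [CharP.cast_eq_mod G 2 n, hodd, Nat.cast_one]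
      · have h11 := geom_sum_mul (ε ^ (n - 1) * ζ ^ 2 ^ s) n
        rw [mul_pow, ← pow_mul, mul_comm (n - 1) n, pow_mul, hεn, one_pow, ← pow_mul,
          mul_comm (2 ^ s) n, pow_mul, hE1 ζ hζ, one_pow, mul_one, sub_self] at h11
        rcases mul_eq_zero.1 h11 with h12 | h12
        · exact h12
        · exfalso
          apply h
          have h13 : ε ^ (n - 1) * ζ ^ 2 ^ s = ε ^ (n - 1) * ε := by
            rw [hεε]; exact sub_eq_zero.1 h12
          exact mul_left_cancel₀ (left_ne_zero_of_mul_eq_one hεε) h13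
    rw [sum_congr rfl h10]
    split_ifs with h
    · obtain ⟨ζ, hζ, hζε⟩ := h
      rw [sum_eq_single_of_mem ζ hζ, if_pos hζε]
      intro ζ' _ hne
      rw [if_neg]
      intro h'
      apply hne
      have h14 : ζ' ^ 2 ^ s = ζ ^ 2 ^ s := h'.trans hζε.symm
      have h15 := sub_pow_char_pow (p := 2) ζ' ζ s
      rw [h14, sub_self] at h15
      exact sub_eq_zero.1 (pow_eq_zero_iff (by positivity) |>.1 h15)
    · refine sum_eq_zero fun ζ hζ => ?_
      rw [if_neg]
      intro h'
      exact h ⟨ζ, hζ, h'⟩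
  have h16 : ∑ s ∈ range m, (z ^ 2 + z) ^ 2 ^ s *
      (if ∃ ζ ∈ E, ζ ^ 2 ^ s = ε then 1 else 0) = 0 := by
    refine Eq.trans ?_ h7
    simp only [mul_sum]
    rw [sum_comm]
    refine sum_congr rfl fun s hs => ?_
    rw [← h8 s hs, mul_sum]
    refine sum_congr rfl fun k _ => ?_
    ring
  rw [sum_filter]
  refine Eq.trans (sum_congr rfl fun s _ => ?_) h16
  split_ifs <;> simp

/-- Powers of `2` modulo `n`. -/
theorem ne_pm {n : ℕ} (hn : n.Prime) (hn2 : n ≠ 2) (ho : Ord n) {a b : ℕ} (hab : a ≤ b)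
    (hb : b < n / 2 + a) : (2 : ZMod n) ^ b ≠ -(2 : ZMod n) ^ a := by
  have : Fact n.Prime := ⟨hn⟩
  have h2 : (2 : ZMod n) ≠ 0 := by
    intro h
    have h3 : ((2 : ℕ) : ZMod n) = 0 := by exact_mod_cast h
    rw [ZMod.natCast_eq_zero_iff] at h3
    exact hn2 ((Nat.prime_dvd_prime_iff_eq hn Nat.prime_two).1 h3)
  intro h
  obtain ⟨k, rfl⟩ := Nat.exists_eq_add_of_le hab
  rw [pow_add] at h
  have h4 : (2 : ZMod n) ^ a * ((2 : ZMod n) ^ k + 1) = 0 := by linear_combination h
  rcases mul_eq_zero.1 h4 with h5 | h5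
  · exact pow_ne_zero _ h2 h5
  · rcases Nat.eq_zero_or_pos k with rfl | hk
    · rw [pow_zero] at h5
      apply h2
      rw [← h5]
      norm_num
    · have h6 := (ho k hk (by omega)).2
      exact h6 (eq_neg_of_add_eq_zero_left h5)

end Pool.Agent.Work.TL.LINL

namespace Pool.Agent.Work.TL

open Finset Polynomial Pool.Agent.Work.MP_223b32_ag Pool.Agent.Work.MP_223b32_ag_56
  Pool.Agent.Work.TC Pool.Agent.Work.TC.LIN

theorem stmt_LINL : Stmt_LINL := by
  intro G _ _ _ _ n m hn hn2 hord hm hG ξ hξn hξ1 P D hP hPD hD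
  have : Fact n.Prime := ⟨hn⟩
  have hchar : CharP G 2 := charP_of_injective_algebraMap (algebraMap (ZMod 2) G).injective 2
  have hfin : Module.finrank (ZMod 2) G = m := by
    have h1 := Module.card_eq_pow_finrank (K := ZMod 2) (V := G)
    rw [hG, ZMod.card] at h1
    exact (Nat.pow_right_injective le_rfl h1).symm
  have hodd : n % 2 = 1 := by
    rcases hn.eq_two_or_odd with h' | h'
    · exact absurd h' hn2
    · exact h'
  set g := n / 2 with hg
  have hng : n = 2 * g + 1 := by omega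
  set e := P.natDegree with he
  have heg : e < g := by omega
  have h2 : (2 : ZMod n) ≠ 0 := by
    intro h
    have h3 : ((2 : ℕ) : ZMod n) = 0 := by exact_mod_cast h
    rw [ZMod.natCast_eq_zero_iff] at h3
    exact hn2 ((Nat.prime_dvd_prime_iff_eq hn Nat.prime_two).1 h3)
  have h2m : (2 : ZMod n) ^ m = 1 := by rw [hm, pow_orderOf_eq_one]
  have hm0 : 0 < m := by
    rcases Nat.eq_zero_or_pos m with h | h
    · rw [h, pow_zero] at hG
      have := Fintype.one_lt_card (α := G)
      omega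
    · exact h
  have hgm : g ≤ m := by
    by_contra h
    push Not at h
    exact (hord m hm0 (by omega)).1 h2m
  -- the order of `2`
  have hmdvd : m ∣ 2 * g := by
    rw [hm]
    refine orderOf_dvd_of_pow_eq_one ?_
    have h3 := ZMod.pow_card_sub_one_eq_one h2
    have h4 : n - 1 = 2 * g := by omega
    rwa [h4] at h3
  have hmcase : m = g ∨ (m = 2 * g ∧ (2 : ZMod n) ^ g = -1) := by
    obtain ⟨c, hc⟩ := hmdvd
    have hg0 : 0 < g := by omega
    rcases Nat.lt_or_ge c 1 with h | h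
    · interval_cases c
      omega
    rcases Nat.lt_or_ge c 2 with h' | h'
    · have hc1 : c = 1 := by omega
      subst hc1
      right
      have hm2 : m = 2 * g := by omega
      refine ⟨hm2, ?_⟩
      have h5 : ((2 : ZMod n) ^ g - 1) * ((2 : ZMod n) ^ g + 1) = 0 := by
        have h6 : (2 : ZMod n) ^ g * (2 : ZMod n) ^ g = 1 := by
          rw [← pow_add, ← two_mul, ← hm2, h2m]
        linear_combination h6
      rcases mul_eq_zero.1 h5 with h6 | h6
      · exfalso
        have h7 : (2 : ZMod n) ^ g = 1 := sub_eq_zero.1 h6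
        have h8 := orderOf_dvd_of_pow_eq_one h7
        rw [← hm] at h8
        have := Nat.le_of_dvd hg0 h8
        omega
      · exact eq_neg_of_add_eq_zero_left h6
    · left
      have : m * 2 ≤ m * c := Nat.mul_le_mul_left _ h'
      omega
  have hξpow : ∀ a b : ℕ, ξ ^ a = ξ ^ b → (a : ZMod n) = b := fun a b h => pow_inj hn hξn hξ1 h
  -- admissibility
  have hadm : Adm n (JJ g P ξ) := by
    intro ζ hζ
    obtain ⟨i, hi, rfl⟩ := mem_image.1 hζ
    rw [mem_filter, mem_range] at hi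
    refine ⟨by rw [← pow_mul, mul_comm, pow_mul, hξn, one_pow], ?_, ?_⟩
    · intro h
      have h3 := hξpow (2 ^ i) 0 (by rw [h, pow_zero])
      push_cast at h3
      exact pow_ne_zero i h2 h3
    · intro h
      obtain ⟨j, hj, hji⟩ := mem_image.1 h
      rw [mem_filter, mem_range] at hj
      have h3 : ξ ^ (2 ^ j + 2 ^ i) = ξ ^ 0 := by
        have h4 : ξ ^ 2 ^ i ≠ 0 := by
          intro h0
          have h5 : (ξ ^ 2 ^ i) ^ n = 1 := by rw [← pow_mul, mul_comm, pow_mul, hξn, one_pow]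
          rw [h0, zero_pow hn.ne_zero] at h5
          exact zero_ne_one h5
        rw [pow_add, hji, inv_mul_cancel₀ h4, pow_zero]
      have h5 := hξpow _ _ h3
      push_cast at h5
      rcases Nat.le_total i j with hij | hij
      · exact LINL.ne_pm hn hn2 hord hij (by omega) (eq_neg_of_add_eq_zero_left h5)
      · refine LINL.ne_pm hn hn2 hord hij (by omega) (eq_neg_of_add_eq_zero_left ?_)
        rw [add_comm]
        exact h5
  refine ⟨hadm, ?_⟩
  set I := JJ g P ξ with hIdef
  set ε : G := ξ ^ 2 ^ (e + (m - g)) with hε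
  have hεn : ε ^ n = 1 := by rw [hε, ← pow_mul, mul_comm, pow_mul, hξn, one_pow]
  set E : Finset G := I ∪ I.image (fun x => x⁻¹) with hE
  have heI : ξ ^ 2 ^ e ∈ I := by
    refine mem_image.2 ⟨e, ?_, rfl⟩
    rw [mem_filter, mem_range]
    refine ⟨heg, ?_⟩
    have h3 : P.coeff e = 1 := hP
    rw [h3]
    exact odd_one
  set S : Finset ℕ := (range m).filter (fun s => ∃ ζ ∈ E, ζ ^ 2 ^ s = ε) with hS
  have hS0 : 0 ∈ S := by
    rw [hS, mem_filter, mem_range]
    refine ⟨hm0, ε, ?_, by rw [pow_zero, pow_one]⟩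
    rcases hmcase with h | ⟨h, h3⟩
    · rw [hε, h, Nat.sub_self, Nat.add_zero]
      exact mem_union_left _ heI
    · refine mem_union_right _ (mem_image.2 ⟨ξ ^ 2 ^ e, heI, ?_⟩)
      have h4 : ((2 ^ e + 2 ^ (e + g) : ℕ) : ZMod n) = ((0 : ℕ) : ZMod n) := by
        push_cast
        rw [pow_add, h3]
        ring
      rw [ZMod.natCast_eq_natCast_iff] at h4
      have h5 : n ∣ 2 ^ e + 2 ^ (e + g) := (Nat.modEq_zero_iff_dvd).1 h4
      obtain ⟨c, hc⟩ := h5
      have h6 : ξ ^ 2 ^ e * ε = 1 := by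
        rw [hε, ← pow_add]
        have h7 : m - g = g := by omega
        rw [h7, hc, pow_mul, hξn, one_pow]
      exact (eq_inv_of_mul_eq_one_right h6).symm
  have hSle : ∀ s ∈ S, s ≤ m - D := by
    intro s hs
    rw [hS, mem_filter, mem_range] at hs
    obtain ⟨hs1, ζ, hζ, hζε⟩ := hs
    by_contra hcon
    push Not at hcon
    have hle : e + (m - g) = m - D := by omega
    have hid : ∀ i, i ∈ (range g).filter (fun i => Odd (P.coeff i)) → i ≤ e := by
      intro i hi
      rw [mem_filter] at hi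
      by_contra h
      push Not at h
      have h3 : P.coeff i = 0 := coeff_eq_zero_of_natDegree_lt h
      rw [h3] at hi
      exact (Int.not_odd_zero hi.2)
    rcases mem_union.1 hζ with h | h
    · obtain ⟨i, hi, rfl⟩ := mem_image.1 h
      have hie := hid i hi
      have h3 : ξ ^ 2 ^ (i + s) = ξ ^ 2 ^ (e + (m - g)) := by
        rw [pow_add 2 i s, pow_mul]
        exact hζε
      have h4 := hξpow _ _ h3
      push_cast at h4
      obtain ⟨k, hk⟩ := Nat.exists_eq_add_of_le (show e + (m - g) ≤ i + s by omega)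
      rw [hk, pow_add] at h4
      have h5 : (2 : ZMod n) ^ k = 1 := by
        have h6 : (2 : ZMod n) ^ (e + (m - g)) * ((2 : ZMod n) ^ k - 1) = 0 := by
          linear_combination h4
        rcases mul_eq_zero.1 h6 with h7 | h7
        · exact absurd h7 (pow_ne_zero _ h2)
        · exact sub_eq_zero.1 h7
      have h8 := orderOf_dvd_of_pow_eq_one h5
      rw [← hm] at h8
      have h9 := Nat.le_of_dvd (by omega) h8
      omega
    · obtain ⟨b, hb, rfl⟩ := mem_image.1 h
      obtain ⟨i, hi, rfl⟩ := mem_image.1 hb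
      have hie := hid i hi
      have h4 : ξ ^ 2 ^ (i + s) ≠ 0 := by
        intro h0
        have h5 : (ξ ^ 2 ^ (i + s)) ^ n = 1 := by
          rw [← pow_mul, mul_comm, pow_mul, hξn, one_pow]
        rw [h0, zero_pow hn.ne_zero] at h5
        exact zero_ne_one h5
      have h3 : ξ ^ (2 ^ (i + s) + 2 ^ (e + (m - g))) = ξ ^ 0 := by
        rw [pow_add, pow_zero]
        have h5 : (ξ ^ 2 ^ (i + s))⁻¹ = ξ ^ 2 ^ (e + (m - g)) := by
          rw [pow_add 2 i s, pow_mul, ← inv_pow]
          exact hζε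
        rw [← h5, mul_inv_cancel₀ h4]
      have h5 := hξpow _ _ h3
      push_cast at h5
      exact LINL.ne_pm hn hn2 hord (show e + (m - g) ≤ i + s by omega) (by omega)
        (eq_neg_of_add_eq_zero_left h5)
  have hDm : D ≤ m := by omega
  have hcard : Nat.card {y : G // ∀ k ∈ Icc 1 g,
      Algebra.trace (ZMod 2) G (y * cc n I k) = 0} ≤ 2 ^ (m - D + 1) := by
    classical
    rw [Nat.card_eq_fintype_card, Fintype.card_subtype]
    have hsq : ∀ y : G, (y ^ 2 ^ (m - 1)) ^ 2 = y := by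
      intro y
      rw [← pow_mul, ← pow_succ, Nat.sub_add_cancel hm0, ← hG, FiniteField.pow_card]
    have hinjf : Function.Injective fun y : G => y ^ 2 ^ (m - 1) := by
      intro y y' h
      have h1 := congrArg (fun x => x ^ 2) h
      simp only [hsq] at h1
      exact h1
    rw [← card_image_of_injective _ hinjf]
    refine card_le hS0 hSle _ ?_
    intro z hz
    obtain ⟨y, hy, rfl⟩ := mem_image.1 hz
    refine LINL.main hn hn2 hG hfin hadm hεn _ ?_
    rw [hsq]
    exact (mem_filter.1 hy).2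
  calc _ ≤ 2 ^ (m - D + 1) * 2 ^ D := Nat.mul_le_mul_right _ hcard
    _ = 2 ^ (m + 1) := by
      rw [← pow_add]
      congr 1
      omega

end Pool.Agent.Work.TL
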